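import Pool.Agent.K1H27.BN.Stm

/-!
# Project BN, piece CHN: the integrated local resolvents
-/

set_option autoImplicit false

namespace Pool.Agent.K1H73.BN

open MeasureTheory Set Metric Filter Topology
open scoped ENNReal NNReal
open Pool.Agent.Y271.RO (ht Bd)
open Pool.Agent.R277.SP (FC Y cK cK_apply ht_cont)
open Pool.Agent.K1H27.BN

/-- the functions `(z - c)^n g` -/
lemma bd_pow {c : ℂ} {ρ : ℝ} (hρ : 0 < ρ) {g : ℂ → ℂ} (hg : Measurable g)
    (h0 : ∀ z, z ∉ ball c ρ → g z = 0) (h1 : ∀ z, ‖g z‖ ≤ 1) (n : ℕ) :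
    Bd (fun z => (z - c) ^ n * g z) c ρ (ρ ^ n) := by
  refine ⟨((measurable_id.sub_const c).pow_const n).mul hg, by positivity, fun z => ?_,
    fun z hz => by simp only [h0 z hz, mul_zero]⟩
  by_cases hz : z ∈ ball c ρ
  · rw [norm_mul, norm_pow]
    rw [mem_ball, dist_eq_norm] at hz
    calc ‖z - c‖ ^ n * ‖g z‖ ≤ ρ ^ n * 1 := by
          gcongr
          exact h1 z
      _ = ρ ^ n := mul_one _
  · simp only [h0 z hz, mul_zero, norm_zero]
    positivity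

/-- `(N - c) Y (h) x = Y ((z - c) h) x - (∫ h) x` -/
lemma Y_rec {E : Type} [NormedAddCommGroup E] [NormedSpace ℂ E] {K : Set ℂ} [CompactSpace K]
    {Φ : C(K, ℂ) →ₐ[ℂ] (E →L[ℂ] E)} {N : E →L[ℂ] E} {M : ℝ} (hF : FC Φ N M)
    {c : ℂ} {ρ : ℝ} (hρ : 0 < ρ) {g : ℂ → ℂ} (hg : Measurable g)
    (h0 : ∀ z, z ∉ ball c ρ → g z = 0) (h1 : ∀ z, ‖g z‖ ≤ 1) (n : ℕ) (x : E) :
    N (Y Φ (fun z => (z - c) ^ n * g z) x) - c • Y Φ (fun z => (z - c) ^ n * g z) x =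
      Y Φ (fun z => (z - c) ^ (n + 1) * g z) x - (∫ z, (z - c) ^ n * g z) • x := by
  obtain ⟨R, hR0, hR⟩ := Pool.Agent.R277.SP.hHT ρ hρ
  have b1 := bd_pow hρ hg h0 h1 n
  have b2 := bd_pow hρ hg h0 h1 (n + 1)
  obtain ⟨-, -, -, -, i5⟩ := hR c _ _ b1
  have e : (fun z => (z - c) * ((z - c) ^ n * g z)) = fun z => (z - c) ^ (n + 1) * g z := by
    funext z
    ring
  unfold Y
  refine hF.step (h := cK K (ht (fun z => (z - c) ^ n * g z)))
    (h' := cK K (ht (fun z => (z - c) ^ (n + 1) * g z))) (a := c)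
    (c := ∫ z, (z - c) ^ n * g z) (fun s => ?_) x
  rw [cK_apply (ht_cont b1), cK_apply (ht_cont b2), ← e, i5 c s]
  ring

/-- elementary inequality -/
lemma young {a b p : ℝ} (ha : 0 ≤ a) (ha1 : a ≤ 1) (hb : 0 ≤ b) (hp : 1 < p) (hp2 : p < 2) :
    a * b ≤ a ^ 2 + b ^ p := by
  have hbp : 0 ≤ b ^ p := Real.rpow_nonneg hb p
  by_cases h : b ≤ a
  · nlinarith
  · push Not at h
    have hb0 : 0 < b := ha.trans_lt h
    by_cases h1 : b < 1
    · have h2 : b ^ (2:ℝ) ≤ b ^ p := Real.rpow_le_rpow_of_exponent_ge hb0 h1.le hp2.le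
      rw [Real.rpow_two] at h2
      nlinarith [sq_nonneg a]
    · push Not at h1
      have h2 : b ^ (1:ℝ) ≤ b ^ p := Real.rpow_le_rpow_of_exponent_le h1 hp.le
      rw [Real.rpow_one] at h2
      nlinarith [sq_nonneg a]

lemma young_enn {a b : ℂ} {p : ℝ} (ha1 : ‖a‖ ≤ 1) (hp : 1 < p) (hp2 : p < 2) :
    ‖a * b‖ₑ ≤ ENNReal.ofReal (‖a‖ ^ 2) + ‖b‖ₑ ^ p := by
  have h := young (norm_nonneg a) ha1 (norm_nonneg b) hp hp2
  have e1 : ‖a * b‖ₑ = ENNReal.ofReal (‖a‖ * ‖b‖) := by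
    rw [← norm_mul, ofReal_norm]
  have e2 : ‖b‖ₑ ^ p = ENNReal.ofReal (‖b‖ ^ p) := by
    rw [← ofReal_norm, ENNReal.ofReal_rpow_of_nonneg (norm_nonneg _) (by linarith)]
  rw [e1, e2, ← ENNReal.ofReal_add (by positivity) (Real.rpow_nonneg (norm_nonneg _) _)]
  exact ENNReal.ofReal_le_ofReal h

section

variable {E : Type} [NormedAddCommGroup E] [NormedSpace ℂ E]

lemma tail_bd {G : ℕ → ℂ → ℂ} (h : ∀ z n, ∑ j ∈ Finset.range n, ‖G j z‖ ^ 2 ≤ 1) (j : ℕ) (z : ℂ) :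
    ‖G j z‖ ≤ 1 := by
  have h1 : ‖G j z‖ ^ 2 ≤ 1 :=
    (Finset.single_le_sum (f := fun j => ‖G j z‖ ^ 2) (fun i _ => by positivity)
      (Finset.self_mem_range_succ j)).trans (h z (j + 1))
  nlinarith [norm_nonneg (G j z)]

lemma tsum_sq {G : ℕ → ℂ → ℂ} (h : ∀ z n, ∑ j ∈ Finset.range n, ‖G j z‖ ^ 2 ≤ 1) (z : ℂ) :
    ∑' j, ENNReal.ofReal (‖G j z‖ ^ 2) ≤ 1 := by
  rw [ENNReal.tsum_eq_iSup_nat]
  refine iSup_le fun n => ?_
  rw [← ENNReal.ofReal_sum_of_nonneg (fun i _ => by positivity)]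
  rw [← ENNReal.ofReal_one]
  exact ENNReal.ofReal_le_ofReal (h z n)

/-- exchange of sum and integral -/
lemma exch {K : Set ℂ} [CompactSpace K] {Φ : C(K, ℂ) →ₐ[ℂ] (E →L[ℂ] E)}
    {Ct : (E →L[ℂ] ℂ) → E → ℂ → ℂ} (hC : CT Φ Ct) {p : ℝ} (hp : 1 < p) (hp2 : p < 2)
    {x : ℕ → E} (hx : Summable fun j => ‖x j‖ ^ p) (y : E →L[ℂ] ℂ) {c : ℂ} {ρ : ℝ} (hρ : 0 < ρ)
    {G : ℕ → ℂ → ℂ} (hG : ∀ j, Measurable (G j)) (hG0 : ∀ j z, z ∉ ball c ρ → G j z = 0)
    (hG1 : ∀ z n, ∑ j ∈ Finset.range n, ‖G j z‖ ^ 2 ≤ 1) (n : ℕ) :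
    HasSum (fun j => ∫ z, (z - c) ^ n * G j z * Ct y (x j) z)
      (∫ z, ∑' j, (z - c) ^ n * G j z * Ct y (x j) z) := by
  have hp0 : 0 < p := by linarith
  have hb : ∀ j, Bd (fun z => (z - c) ^ n * G j z) c ρ (ρ ^ n) := fun j =>
    bd_pow hρ (hG j) (hG0 j) (tail_bd hG1 j) n
  have hint : ∀ j, Integrable fun z => (z - c) ^ n * G j z * Ct y (x j) z := fun j =>
    (hC.eq y (x j) c ρ _ _ (hb j)).1
  refine hasSum_integral_of_summable_integral_norm hint ?_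
  have e0 : ∀ j, ∫ z, ‖(z - c) ^ n * G j z * Ct y (x j) z‖ =
      (∫⁻ z, ‖(z - c) ^ n * G j z * Ct y (x j) z‖ₑ).toReal := fun j =>
    integral_norm_eq_lintegral_enorm (hint j).1
  simp_rw [e0]
  refine ENNReal.summable_toReal ?_
  obtain ⟨B, hB⟩ := hC.bd p hp hp2 (‖c‖ + ρ)
  have hmG : ∀ j, Measurable fun z => ENNReal.ofReal (‖G j z‖ ^ 2) := fun j =>
    ((hG j).norm.pow_const 2).ennreal_ofReal
  have hmC : ∀ j, Measurable fun z => ‖Ct y (x j) z‖ₑ ^ p := fun j =>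
    ((hC.meas y (x j)).enorm).pow_const p
  -- each term
  have e1 : ∀ j, ∫⁻ z, ‖(z - c) ^ n * G j z * Ct y (x j) z‖ₑ ≤
      ENNReal.ofReal (ρ ^ n) * ((∫⁻ z in ball c ρ, ENNReal.ofReal (‖G j z‖ ^ 2)) +
        ∫⁻ z in ball c ρ, ‖Ct y (x j) z‖ₑ ^ p) := by
    intro j
    have hm2 : Measurable fun z => ENNReal.ofReal (‖G j z‖ ^ 2) + ‖Ct y (x j) z‖ₑ ^ p :=
      (hmG j).add (hmC j)
    rw [← lintegral_add_left (hmG j), ← lintegral_const_mul _ hm2]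
    rw [← lintegral_indicator measurableSet_ball]
    refine lintegral_mono fun z => ?_
    by_cases hz : z ∈ ball c ρ
    · rw [indicator_of_mem hz, mul_assoc, enorm_mul]
      refine mul_le_mul' ?_ (young_enn (tail_bd hG1 j z) hp hp2)
      rw [← ofReal_norm, norm_pow]
      refine ENNReal.ofReal_le_ofReal ?_
      rw [mem_ball, dist_eq_norm] at hz
      gcongr
    · rw [indicator_of_notMem hz, hG0 j z hz]
      simp
  have e2 : ∀ j, ∫⁻ z in ball c ρ, ‖Ct y (x j) z‖ₑ ^ p ≤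
      B * ENNReal.ofReal ((‖y‖ * ‖x j‖) ^ p) := by
    intro j
    refine le_trans (lintegral_mono_set ?_) (hB y (x j))
    intro z hz
    rw [mem_ball, dist_eq_norm] at hz
    rw [mem_ball, dist_eq_norm, sub_zero]
    calc ‖z‖ = ‖c + (z - c)‖ := by congr 1; ring
      _ ≤ ‖c‖ + ‖z - c‖ := norm_add_le _ _
      _ < ‖c‖ + ρ := by linarith
  have s2 : ∑' j, ∫⁻ z in ball c ρ, ‖Ct y (x j) z‖ₑ ^ p ≠ ⊤ := by
    refine ne_top_of_le_ne_top ?_ (ENNReal.tsum_le_tsum e2)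
    rw [ENNReal.tsum_mul_left]
    refine ENNReal.mul_ne_top ENNReal.coe_ne_top ?_
    have hs : Summable fun j => (‖y‖ * ‖x j‖) ^ p := by
      have : (fun j => (‖y‖ * ‖x j‖) ^ p) = fun j => ‖y‖ ^ p * ‖x j‖ ^ p := by
        funext j
        exact Real.mul_rpow (norm_nonneg _) (norm_nonneg _)
      rw [this]
      exact hx.mul_left _
    exact hs.tsum_ofReal_ne_top
  have s1 : ∑' j, ∫⁻ z in ball c ρ, ENNReal.ofReal (‖G j z‖ ^ 2) ≠ ⊤ := by
    rw [← lintegral_tsum (fun j => (hmG j).aemeasurable)]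
    refine ne_top_of_le_ne_top ?_ (lintegral_mono fun z => tsum_sq hG1 z)
    rw [lintegral_const, one_mul, Measure.restrict_apply_univ]
    exact measure_ball_lt_top.ne
  refine ne_top_of_le_ne_top ?_ (ENNReal.tsum_le_tsum e1)
  rw [ENNReal.tsum_mul_left, ENNReal.tsum_add]
  exact ENNReal.mul_ne_top ENNReal.ofReal_ne_top (ENNReal.add_ne_top.2 ⟨s1, s2⟩)

omit [NormedSpace ℂ E] in
/-- summability of vectors -/
lemma summ [CompleteSpace E] {p : ℝ} (hp : 1 < p) {x : ℕ → E} (hx : Summable fun j => ‖x j‖ ^ p)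
    {C : ℝ} (hC : 0 ≤ C) {V : ℕ → E}
    (hV : ∀ J : Finset ℕ, ‖∑ j ∈ J, V j‖ ≤ C * (∑ j ∈ J, ‖x j‖ ^ p) ^ (1 / p)) :
    Summable V ∧ ‖∑' j, V j‖ ≤ C * (∑' j, ‖x j‖ ^ p) ^ (1 / p) := by
  have hp0 : 0 < p := by linarith
  have h1 : Summable V := by
    rw [summable_iff_vanishing_norm]
    intro ε hε
    have hq : 0 < ε / (2 * (C + 1)) := by positivity
    obtain ⟨s, hs⟩ := (summable_iff_vanishing_norm.1 hx) ((ε / (2 * (C + 1))) ^ p) (by positivity)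
    refine ⟨s, fun t ht => ?_⟩
    have h2 := hs t ht
    have h3 : 0 ≤ ∑ j ∈ t, ‖x j‖ ^ p := Finset.sum_nonneg fun j _ => by positivity
    rw [Real.norm_of_nonneg h3] at h2
    calc ‖∑ j ∈ t, V j‖ ≤ C * (∑ j ∈ t, ‖x j‖ ^ p) ^ (1 / p) := hV t
      _ ≤ C * ((ε / (2 * (C + 1))) ^ p) ^ (1 / p) := by gcongr
      _ = C * (ε / (2 * (C + 1))) := by
          rw [← Real.rpow_mul hq.le, mul_one_div_cancel hp0.ne', Real.rpow_one]
      _ ≤ (C + 1) * (ε / (2 * (C + 1))) := by gcongr; linarith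
      _ = ε / 2 := by field_simp
      _ < ε := by linarith
  refine ⟨h1, ?_⟩
  refine le_of_tendsto h1.hasSum.norm (Eventually.of_forall fun J => (hV J).trans ?_)
  gcongr
  exact hx.sum_le_tsum J (fun j _ => by positivity)

end

theorem t_CHN (h : S_NRM) : S_CHN := by
  intro E _ _ _ K _ Φ N M hF Ct hCt p hp hp2 K' f x hR x₀ t c ρ hρ g G hg hG hg0 hG0 hg1 hG1 hrel hort
  obtain ⟨C, hC0, hC⟩ := h E K Φ N M hF Ct hCt p hp hp2 c ρ hρ
  obtain ⟨R, hR0, hRb⟩ := hF.Y_bd hρ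
  -- the vectors
  set V : ℕ → ℕ → E := fun n j => Y Φ (fun z => (z - c) ^ n * G j z) (x j) with hV
  have hVs : ∀ n, Summable (V n) ∧ ‖∑' j, V n j‖ ≤ C * ρ ^ n * (∑' j, ‖x j‖ ^ p) ^ (1 / p) := by
    intro n
    refine summ hp hR.sx (by positivity) fun J => ?_
    have := hC G hG hG0 hG1 x J n
    calc ‖∑ j ∈ J, V n j‖ ≤ C * (∑ j ∈ J, ‖x j‖ ^ p) ^ (1 / p) * ρ ^ n := this
      _ = _ := by ring
  set X : ℕ → E := fun n => Y Φ (fun z => (z - c) ^ n * g z) x₀ + t • ∑' j, V n j with hX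
  -- the integrals
  set I : ℕ → ℕ → ℂ := fun n j => ∫ z, (z - c) ^ n * G j z with hI
  have hbG : ∀ n j, Bd (fun z => (z - c) ^ n * G j z) c ρ (ρ ^ n) := fun n j =>
    bd_pow hρ (hG j) (hG0 j) (tail_bd hG1 j) n
  have hbg : ∀ n, Bd (fun z => (z - c) ^ n * g z) c ρ (ρ ^ n) := fun n =>
    bd_pow hρ hg hg0 hg1 n
  -- the functionals
  have hf : ∀ n i, f i (X n) = I n i := by
    intro n i
    have h1 : f i (Y Φ (fun z => (z - c) ^ n * g z) x₀) = ∫ z, (z - c) ^ n * g z * Ct (f i) x₀ z :=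
      (hCt.eq (f i) x₀ c ρ _ _ (hbg n)).2
    have i1 : Integrable fun z => (z - c) ^ n * g z * Ct (f i) x₀ z :=
      (hCt.eq (f i) x₀ c ρ _ _ (hbg n)).1
    have h2 : HasSum (fun j => f i (V n j)) (f i (∑' j, V n j)) := (hVs n).1.hasSum.mapL (f i)
    have h3 : (fun j => f i (V n j)) = fun j => ∫ z, (z - c) ^ n * G j z * Ct (f i) (x j) z := by
      funext j
      exact (hCt.eq (f i) (x j) c ρ _ _ (hbG n j)).2
    rw [h3] at h2
    have h4 := exch hCt hp hp2 hR.sx (f i) hρ hG hG0 hG1 n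
    have h5 := h2.unique h4
    obtain ⟨R', hR0', hRb'⟩ := Pool.Agent.R277.SP.hHT ρ hρ
    have i2 : Integrable fun z => (z - c) ^ n * G i z := (hRb' c _ _ (hbG n i)).1
    rw [hX]
    simp only [map_add, map_smul, smul_eq_mul]
    rw [h1, h5, ← integral_const_mul]
    have h6 : ∫ z, t * ∑' j, (z - c) ^ n * G j z * Ct (f i) (x j) z =
        ∫ z, ((z - c) ^ n * G i z - (z - c) ^ n * g z * Ct (f i) x₀ z) := by
      refine integral_congr_ae ?_
      filter_upwards [hrel] with z hz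
      have h7 := (hz i).mul_left ((z - c) ^ n)
      have h8 : t * ∑' j, (z - c) ^ n * G j z * Ct (f i) (x j) z =
          ∑' j, (z - c) ^ n * (t * (Ct (f i) (x j) z * G j z)) := by
        rw [← tsum_mul_left]
        congr 1
        funext j
        ring
      rw [h8, h7.tsum_eq]
      ring
    rw [h6, integral_sub i2 i1]
    ring
  -- the two sums
  have hstep : ∀ n j, N (V n j) - c • V n j = V (n + 1) j - I n j • x j := fun n j =>
    Y_rec hF hρ (hG j) (hG0 j) (tail_bd hG1 j) n (x j)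
  have hK : ∀ n, K' (X n) = (∑' j, V (n + 1) j) - (N (∑' j, V n j) - c • ∑' j, V n j) := by
    intro n
    have h1 := hR.sum (X n)
    simp_rw [hf n] at h1
    have h2 : HasSum (fun j => I n j • x j)
        ((∑' j, V (n + 1) j) - (N (∑' j, V n j) - c • ∑' j, V n j)) := by
      have h3 : (fun j => I n j • x j) = fun j => V (n + 1) j - (N (V n j) - c • V n j) := by
        funext j
        rw [hstep n j]
        abel
      rw [h3]
      exact (hVs (n + 1)).1.hasSum.sub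
        (((hVs n).1.hasSum.mapL N).sub ((hVs n).1.hasSum.const_smul c))
    exact h1.unique h2
  have hmain : ∀ n, (N + t • K') (X n) - c • X n = X (n + 1) - (∫ z, (z - c) ^ n * g z) • x₀ := by
    intro n
    have h1 := Y_rec hF hρ hg hg0 hg1 n x₀
    have h2 : N (Y Φ (fun z => (z - c) ^ n * g z) x₀) =
        c • Y Φ (fun z => (z - c) ^ n * g z) x₀ + (Y Φ (fun z => (z - c) ^ (n + 1) * g z) x₀ -
          (∫ z, (z - c) ^ n * g z) • x₀) := by
      rw [← h1]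
      abel
    rw [ContinuousLinearMap.add_apply, ContinuousLinearMap.smul_apply, hK n]
    simp only [hX, map_add, map_smul, h2, smul_add, smul_sub]
    rw [smul_comm c t]
    abel
  refine ⟨X, M * (R * 1) * ‖x₀‖ + ‖t‖ * (C * (∑' j, ‖x j‖ ^ p) ^ (1 / p)), fun n => ?_, ?_,
    fun n => ?_⟩
  · have h1 := (hRb c _ _ (hbg n) x₀).1
    calc ‖X n‖ ≤ ‖Y Φ (fun z => (z - c) ^ n * g z) x₀‖ + ‖t • ∑' j, V n j‖ := norm_add_le _ _
      _ ≤ M * (R * ρ ^ n) * ‖x₀‖ + ‖t‖ * (C * ρ ^ n * (∑' j, ‖x j‖ ^ p) ^ (1 / p)) := by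
          rw [norm_smul]
          gcongr
          exact (hVs n).2
      _ = _ := by ring
  · have h1 := hmain 0
    simpa only [pow_zero, one_mul] using h1
  · have h1 := hmain (n + 1)
    rw [hort n, zero_smul, sub_zero] at h1
    exact h1

end Pool.Agent.K1H73.BN
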